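import Pool.Agent.L7h49.WN.Def

set_option autoImplicit false

namespace Pool.Agent.L7h37.WN

open Pool.Agent.L7h49.WN

theorem wt_concat {x y z : V} (p : G.Walk x y) (h : G.Adj y z) :
    wt (p.concat h) = wt p + om y z := by
  simp [wt, SimpleGraph.Walk.darts_concat]

theorem wstep (hOM : S_OM) {x v w : V} (p : G.Walk x v) (h : ‖pos v - pos w‖ ≤ 2) :
    ∃ q : G.Walk x w, wt q ≤ wt p + 42 := by
  by_cases hvw : v = w
  · subst hvw
    exact ⟨p, by linarith⟩
  · exact ⟨p.concat ⟨hvw, h⟩, by rw [wt_concat]; linarith [(hOM v w).2.2]⟩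

theorem s_SHO (hNET : S_NET) (hOM : S_OM) : S_SHO := by
  intro x y
  set D := ‖pos x - pos y‖ with hD
  have hD0 : 0 ≤ D := norm_nonneg _
  obtain ⟨N, hNpos, hN1, hN2⟩ : ∃ N : ℕ, (0:ℝ) < N ∧ 2 * D ≤ N ∧ (N:ℝ) ≤ 2 * D + 2 := by
    refine ⟨⌈2 * D⌉₊ + 1, by positivity, ?_, ?_⟩
    · have := Nat.le_ceil (2 * D)
      push_cast
      linarith
    · have := Nat.ceil_lt_add_one (by positivity : 0 ≤ 2 * D)
      push_cast
      linarith
  let z : ℕ → ℂ := fun j => pos x + (((j : ℝ) / (N : ℝ) : ℝ) : ℂ) * (pos y - pos x)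
  have hz : ∀ j, ‖z j - z (j + 1)‖ ≤ 1 / 2 := by
    intro j
    have h1 : z j - z (j + 1) = (((-(1:ℝ) / N) : ℝ) : ℂ) * (pos y - pos x) := by
      simp only [z]
      push_cast
      ring
    rw [h1, norm_mul, Complex.norm_real, Real.norm_eq_abs, abs_div, abs_neg, abs_one,
      abs_of_pos hNpos, norm_sub_rev, ← hD, div_mul_eq_mul_div, one_mul, div_le_iff₀ hNpos]
    linarith
  have key : ∀ j : ℕ, ∃ v : V, ‖pos v - z j‖ ≤ 3 / 4 ∧ ∃ p : G.Walk x v, wt p ≤ 42 * j := by
    intro j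
    induction j with
    | zero =>
      refine ⟨x, ?_, SimpleGraph.Walk.nil, ?_⟩
      · simp only [z]
        simp
        norm_num
      · simp [wt]
    | succ j ih =>
      obtain ⟨v, hv, p, hp⟩ := ih
      obtain ⟨k, i, hki⟩ := hNET (z (j + 1)) 0
      have hdist : ‖pos v - pos ((0 : Fin 4), k, i)‖ ≤ 2 := by
        have h1 : pos v - pos ((0 : Fin 4), k, i) =
            (pos v - z j) + (z j - z (j + 1)) + (z (j + 1) - pos ((0 : Fin 4), k, i)) := by ring
        rw [h1]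
        have h2 := norm_add_le ((pos v - z j) + (z j - z (j + 1)))
          (z (j + 1) - pos ((0 : Fin 4), k, i))
        have h3 := norm_add_le (pos v - z j) (z j - z (j + 1))
        have h4 : ‖z (j + 1) - pos ((0 : Fin 4), k, i)‖ ≤ 3 / 4 := by
          rw [norm_sub_rev]
          exact hki
        linarith [hz j]
      obtain ⟨q, hq⟩ := wstep hOM p hdist
      exact ⟨_, hki, q, by push_cast; linarith⟩
  obtain ⟨v, hv, p, hp⟩ := key N
  have hzN : z N = pos y := by
    simp only [z]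
    rw [div_self hNpos.ne']
    push_cast
    ring
  rw [hzN] at hv
  obtain ⟨q, hq⟩ := wstep hOM p (hv.trans (by norm_num))
  exact ⟨q, by linarith⟩

end Pool.Agent.L7h37.WN
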